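import Mathlib

namespace Pool.Agent.Results.MP_66a881_co.Day

open Finset

/-- The `m` distinct elements `a 0, …, a (m-1)` of `ZMod n` form a `B_h` set over `ℤ`: the map
`l ↦ ∑ l i • a i` is injective on the integer vectors with `∑ |l i| = h`. -/
def IsBh (n h m : ℕ) (a : Fin m → ZMod n) : Prop :=
  Function.Injective a ∧
    Set.InjOn (fun l : Fin m → ℤ => ∑ i, l i • a i) {l | ∑ i, |l i| = (h : ℤ)}

/-- The largest size of a `B_h` set over `ℤ` in `ZMod n`. -/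
noncomputable def sigma (n h : ℕ) : ℕ := sSup {m | ∃ a : Fin m → ZMod n, IsBh n h m a}

/-- The least positive `g` with `sigma n h ≥ m` for every `n ≥ g`. -/
noncomputable def gpm (m h : ℕ) : ℕ := sInf {g | 0 < g ∧ ∀ n, g ≤ n → m ≤ sigma n h}

lemma core_even (h d1 d2 d3 p1 p2 p3 : ℤ) (hh : 1 ≤ h) (he : h % 2 = 0)
    (a1 : d1 ≤ p1) (b1 : -d1 ≤ p1) (a2 : d2 ≤ p2) (b2 : -d2 ≤ p2) (a3 : d3 ≤ p3) (b3 : -d3 ≤ p3)
    (hp : p1 + p2 + p3 = 2 * h) (par : (d1 + d2 + d3) % 2 = 0)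
    (hz : d1 * 1 + d2 * h + d3 * (h ^ 2 + h + 1) = 0) : d1 = 0 ∧ d2 = 0 ∧ d3 = 0 := by
  obtain ⟨e, he1⟩ : ∃ e, e = d2 + d3 * (h + 1) := ⟨_, rfl⟩
  have he2 : d1 + d3 + e * h = 0 := by rw [he1]; linear_combination hz
  have e1 : e ≤ 2 := by by_contra hc; nlinarith
  have e2 : -2 ≤ e := by by_contra hc; nlinarith
  have f1 : d3 ≤ 2 := by by_contra hc; nlinarith
  have f2 : -2 ≤ d3 := by by_contra hc; nlinarith
  interval_cases e <;> interval_cases d3 <;> omega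

lemma core_odd (h d1 d2 d3 p1 p2 p3 : ℤ) (hh : 1 ≤ h) (he : h % 2 = 1)
    (a1 : d1 ≤ p1) (b1 : -d1 ≤ p1) (a2 : d2 ≤ p2) (b2 : -d2 ≤ p2) (a3 : d3 ≤ p3) (b3 : -d3 ≤ p3)
    (hp : p1 + p2 + p3 = 2 * h) (par : (d1 + d2 + d3) % 2 = 0)
    (hz : d1 * 2 + d2 * h + d3 * (h ^ 2 + h + 4) = 0) : d1 = 0 ∧ d2 = 0 ∧ d3 = 0 := by
  obtain ⟨e, he1⟩ : ∃ e, e = d2 + d3 * (h + 1) := ⟨_, rfl⟩
  have he2 : 2 * d1 + 4 * d3 + e * h = 0 := by rw [he1]; linear_combination hz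
  have e1 : e ≤ 8 := by by_contra hc; nlinarith
  have e2 : -8 ≤ e := by by_contra hc; nlinarith
  have f1 : d3 ≤ 5 := by by_contra hc; nlinarith
  have f2 : -5 ≤ d3 := by by_contra hc; nlinarith
  interval_cases e <;> interval_cases d3 <;> omega

lemma par (x : ℤ) : |x| % 2 = x % 2 := by
  rcases abs_choice x with h | h <;> rw [h] <;> omega

lemma build (n h : ℕ) (hh : 1 ≤ h) (c1 c3 : ℤ) (k1 : 0 < c1) (k2 : c1 ≤ c3) (k3 : (h : ℤ) ≤ c3)
    (hn : 2 * h * c3 < n)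
    (core : ∀ d1 d2 d3 p1 p2 p3 : ℤ, d1 ≤ p1 → -d1 ≤ p1 → d2 ≤ p2 → -d2 ≤ p2 → d3 ≤ p3 →
      -d3 ≤ p3 → p1 + p2 + p3 = 2 * h → (d1 + d2 + d3) % 2 = 0 →
      d1 * c1 + d2 * h + d3 * c3 = 0 → d1 = 0 ∧ d2 = 0 ∧ d3 = 0) :
    IsBh n h 3 ![(c1 : ZMod n), (h : ZMod n), (c3 : ZMod n)] := by
  have hh' : (1 : ℤ) ≤ h := by exact_mod_cast hh
  have inj : Set.InjOn (fun l : Fin 3 → ℤ => ∑ i, l i • ![(c1 : ZMod n), (h : ZMod n), (c3 : ZMod n)] i)
      {l | ∑ i, |l i| = (h : ℤ)} := by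
    intro x hx y hy hxy
    simp only [Set.mem_setOf_eq, Fin.sum_univ_three] at hx hy
    simp only [Fin.sum_univ_three, Matrix.cons_val_zero, Matrix.cons_val_one, Matrix.cons_val_two,
      Matrix.head_cons, Matrix.tail_cons, zsmul_eq_mul] at hxy
    have hz : (((x 0 - y 0) * c1 + (x 1 - y 1) * h + (x 2 - y 2) * c3 : ℤ) : ZMod n) = 0 := by
      push_cast
      linear_combination hxy
    rw [ZMod.intCast_zmod_eq_zero_iff_dvd] at hz
    have u0 := le_abs_self (x 0); have v0 := neg_abs_le (x 0)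
    have u1 := le_abs_self (x 1); have v1 := neg_abs_le (x 1)
    have u2 := le_abs_self (x 2); have v2 := neg_abs_le (x 2)
    have s0 := le_abs_self (y 0); have t0 := neg_abs_le (y 0)
    have s1 := le_abs_self (y 1); have t1 := neg_abs_le (y 1)
    have s2 := le_abs_self (y 2); have t2 := neg_abs_le (y 2)
    have hb : ∀ d p c : ℤ, d ≤ p → -d ≤ p → 0 ≤ c → c ≤ c3 → d * c ≤ p * c3 ∧ -(d * c) ≤ p * c3 := by
      intro d p c h1 h2 h3 h4
      constructor <;> nlinarith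
    have w0 := hb (x 0 - y 0) (|x 0| + |y 0|) c1 (by linarith) (by linarith) (by linarith) k2
    have w1 := hb (x 1 - y 1) (|x 1| + |y 1|) h (by linarith) (by linarith) (by linarith) k3
    have w2 := hb (x 2 - y 2) (|x 2| + |y 2|) c3 (by linarith) (by linarith) (by linarith) le_rfl
    have hs : (|x 0| + |y 0|) * c3 + (|x 1| + |y 1|) * c3 + (|x 2| + |y 2|) * c3 = 2 * h * c3 := by
      have : (|x 0| + |y 0|) + (|x 1| + |y 1|) + (|x 2| + |y 2|) = 2 * h := by linarith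
      rw [← this]; ring
    have hz0 := Int.eq_zero_of_abs_lt_dvd hz (by
      rw [abs_lt]; constructor <;> linarith [w0.1, w0.2, w1.1, w1.2, w2.1, w2.2])
    have q0 := par (x 0); have q1 := par (x 1); have q2 := par (x 2)
    have r0 := par (y 0); have r1 := par (y 1); have r2 := par (y 2)
    obtain ⟨z0, z1, z2⟩ := core (x 0 - y 0) (x 1 - y 1) (x 2 - y 2) (|x 0| + |y 0|)
      (|x 1| + |y 1|) (|x 2| + |y 2|) (by linarith) (by linarith) (by linarith) (by linarith)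
      (by linarith) (by linarith) (by linarith) (by omega) hz0
    funext i
    fin_cases i
    · exact sub_eq_zero.mp z0
    · exact sub_eq_zero.mp z1
    · exact sub_eq_zero.mp z2
  refine ⟨?_, inj⟩
  intro i j hij
  have mem : ∀ i : Fin 3, (Pi.single i (h : ℤ) : Fin 3 → ℤ) ∈
      {l : Fin 3 → ℤ | ∑ i, |l i| = (h : ℤ)} := by
    intro i
    fin_cases i <;> simp [Fin.sum_univ_three]
  have ev : ∀ (a : Fin 3 → ZMod n) (i : Fin 3),
      ∑ k, (Pi.single i (h : ℤ) : Fin 3 → ℤ) k • a k = (h : ℤ) • a i := by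
    intro a i
    fin_cases i <;> simp [Fin.sum_univ_three]
  have := inj (mem i) (mem j) (by simp only [ev]; rw [hij])
  by_contra hne
  have h2 := congrFun this i
  rw [Pi.single_eq_same, Pi.single_eq_of_ne hne] at h2
  omega

lemma three_le (h n : ℕ) (hh : 1 ≤ h) (hn : 2 * h ^ 3 + 2 * h ^ 2 + 8 * h + 1 ≤ n) :
    3 ≤ sigma n h := by
  haveI : NeZero n := ⟨by omega⟩
  have hh' : (1 : ℤ) ≤ h := by exact_mod_cast hh
  have hn' : 2 * (h : ℤ) ^ 3 + 2 * h ^ 2 + 8 * h + 1 ≤ n := by exact_mod_cast hn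
  apply le_csSup
  · refine ⟨n, ?_⟩
    rintro m ⟨a, ha, -⟩
    simpa using Fintype.card_le_of_injective a ha
  · rcases Int.emod_two_eq_zero_or_one h with he | he
    · exact ⟨_, build n h hh 1 (h ^ 2 + h + 1) (by norm_num) (by nlinarith) (by nlinarith)
        (by nlinarith) (fun d1 d2 d3 p1 p2 p3 => core_even h d1 d2 d3 p1 p2 p3 hh' he)⟩
    · exact ⟨_, build n h hh 2 (h ^ 2 + h + 4) (by norm_num) (by nlinarith) (by nlinarith)
        (by nlinarith) (fun d1 d2 d3 p1 p2 p3 => core_odd h d1 d2 d3 p1 p2 p3 hh' he)⟩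

theorem result (h : ℕ) (hh : 1 ≤ h) :
    (∀ n, 2 * h ^ 3 + 2 * h ^ 2 + 8 * h + 1 ≤ n → 3 ≤ sigma n h) ∧
      gpm 3 h ≤ 2 * h ^ 3 + 2 * h ^ 2 + 8 * h + 1 :=
  ⟨fun n hn => three_le h n hh hn,
    Nat.sInf_le ⟨by omega, fun n hn => three_le h n hh hn⟩⟩

end Pool.Agent.Results.MP_66a881_co.Day
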